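import Pool.Agent.H33.HH.TC

/-!
# Row HSU of hha_modules: the sums of the coefficients
-/

set_option autoImplicit false

open NumberField

namespace Pool.Agent.H40.HH

open Pool.Agent.H33.HH Pool.Agent.H28.RC Pool.Agent.H37.CV

section

variable {K : Type} [Field K] [NumberField K]

theorem two_le_np (p : PrI K) : 2 ≤ np p := by
  have h1 : Ideal.absNorm p.1 ≠ 0 := by
    rw [Ne, Ideal.absNorm_eq_zero_iff]
    exact p.2.2
  have h2 : Ideal.absNorm p.1 ≠ 1 := by
    rw [Ne, Ideal.absNorm_eq_one_iff]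
    exact p.2.1.ne_top
  have h3 : 2 ≤ Ideal.absNorm p.1 := by omega
  unfold np nm
  exact_mod_cast h3

theorem idS_le {S : Finset (PrI K)} {p : PrI K} (hp : p ∈ S) : idS S ≤ p.1 :=
  Ideal.dvd_iff_le.1 (Finset.dvd_prod_of_mem (fun P : PrI K => P.1) hp)

theorem sum_ha (S : Finset (PrI K)) (b : Ideal (𝓞 K)) [Decidable (∀ p ∈ S, b ≤ p.1)] :
    ∑ R₁ ∈ S.powerset, ha R₁ b = if ∀ p ∈ S, b ≤ p.1 then nS np S else 0 := by
  classical
  unfold ha
  rw [← Finset.prod_add_one]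
  simp only [sub_add_cancel]
  split_ifs with h
  · unfold nS
    exact Finset.prod_congr rfl fun p hp => if_pos (h p hp)
  · push Not at h
    obtain ⟨p, hp, h1⟩ := h
    exact Finset.prod_eq_zero hp (if_neg h1)

theorem sum_hk (P : ℝ) (k : Ideal (𝓞 K)) :
    ∑ R₀ ∈ (SP K P).powerset, hk P k R₀ = ∏ p ∈ SP K P, (1 - 1 / np p) := by
  unfold hk
  rw [← Finset.prod_add]
  refine Finset.prod_congr rfl fun p _ => ?_
  split_ifs
  · ring
  · ring

theorem abs_hk (P : ℝ) (k : Ideal (𝓞 K)) (R : Finset (PrI K)) : |hk P k R| ≤ 1 := by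
  have h0 : ∀ p : PrI K, 0 ≤ 1 / np p ∧ 1 / np p ≤ 1 / 2 := fun p => by
    have := two_le_np p
    exact ⟨by positivity, one_div_le_one_div_of_le (by norm_num) this⟩
  unfold hk
  rw [abs_mul, Finset.abs_prod, Finset.abs_prod]
  refine mul_le_one₀ ?_ (Finset.prod_nonneg fun _ _ => abs_nonneg _) ?_
  · refine Finset.prod_le_one (fun _ _ => abs_nonneg _) fun p _ => ?_
    obtain ⟨h1, h2⟩ := h0 p
    split_ifs
    · simp
    · rw [abs_le]
      constructor <;> linarith
  · refine Finset.prod_le_one (fun _ _ => abs_nonneg _) fun p _ => ?_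
    obtain ⟨h1, h2⟩ := h0 p
    split_ifs
    · rw [abs_le]
      constructor <;> linarith
    · have h3 : 2 / np p = 2 * (1 / np p) := by ring
      rw [abs_le, h3]
      constructor <;> linarith

open scoped Classical in
theorem sum_div (S : Finset (PrI K)) (b : Ideal (𝓞 K)) :
    ∑ R₁ ∈ S.powerset, ha R₁ b / nS np R₁ =
      ∏ p ∈ S, ((if b ≤ p.1 then (1 : ℝ) else 0) + 1 - 1 / np p) := by
  have h1 : ∀ R₁ ∈ S.powerset, ha R₁ b / nS np R₁ =
      ∏ p ∈ R₁, ((if b ≤ p.1 then np p else 0) - 1) / np p := by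
    intro R₁ _
    unfold ha nS
    rw [Finset.prod_div_distrib]
  rw [Finset.sum_congr rfl h1, ← Finset.prod_add_one]
  refine Finset.prod_congr rfl fun p _ => ?_
  have h2 := two_le_np p
  have h3 : np p ≠ 0 := by linarith
  split_ifs
  · field_simp
    ring
  · field_simp
    ring

end

theorem pf_HSU (h : T_IDF) : T_HSU := by
  intro K _ _ _ P y hy S hS b k hb hPb _
  obtain ⟨h1, -, -, -, -, -, -, h2⟩ := h K P y hy S hS
  have h3 := h2 b (idS S) hb h1 hPb
  rw [sup_idem] at h3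
  have h4 : idS S ∣ b ↔ ∀ p ∈ S, b ≤ p.1 := by
    rw [h3]
    exact ⟨fun h p hp => h p hp (idS_le hp), fun h p hp _ => h p hp⟩
  refine ⟨?_, sum_hk P k, fun R _ => abs_hk P k R, sum_div S b⟩
  classical
  rw [sum_ha]
  by_cases h5 : ∀ p ∈ S, b ≤ p.1
  · rw [if_pos h5, if_pos (h4.2 h5)]
  · rw [if_neg h5, if_neg fun h6 => h5 (h4.1 h6)]

end Pool.Agent.H40.HH
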