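import Pool.Agent.H33.HH.TC

/-!
# Row JIS of hha_modules: the function `Ji` is smooth at `0`
-/

set_option autoImplicit false

open Complex Filter Topology MeasureTheory
open scoped ContDiff

namespace Pool.Agent.H40.HH

open Pool.Agent.H33.HH

noncomputable section

/-- the integral over `(0, 2]` -/
def Fg (g G : ℝ → ℝ) (t : ℝ) : ℝ := ∫ u in Set.Ioc (0 : ℝ) 2, g u * G (u * t)

theorem cont_mul {G : ℝ → ℝ} (hG : Continuous G) (t : ℝ) : Continuous fun u => G (u * t) :=
  hG.comp (continuous_id.mul continuous_const)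

theorem int_mul {g G : ℝ → ℝ} {R : ℝ} (hR : 0 ≤ R) (hg : IntegrableOn g (Set.Ioc 0 R))
    (hG : Continuous G) : IntegrableOn (fun u => g u * G u) (Set.Ioc 0 R) := by
  rw [← intervalIntegrable_iff_integrableOn_Ioc_of_le hR] at hg ⊢
  exact hg.mul_continuousOn hG.continuousOn

theorem hasDeriv {g G : ℝ → ℝ} (hg : IntegrableOn g (Set.Ioc 0 2)) (hG : ContDiff ℝ ∞ G)
    (t : ℝ) : HasDerivAt (Fg g G) (Fg (fun u => g u * u) (deriv G) t) t := by
  have hG' : Continuous (deriv G) := hG.continuous_deriv (by simp)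
  obtain ⟨C, hC⟩ := (isCompact_Icc (a := -(2 * (|t| + 1)))
    (b := 2 * (|t| + 1))).exists_bound_of_continuousOn hG'.continuousOn
  have h := hasDerivAt_integral_of_dominated_loc_of_deriv_le
    (μ := volume.restrict (Set.Ioc (0 : ℝ) 2)) (s := Metric.ball t 1) (x₀ := t)
    (F := fun x u => g u * G (u * x)) (F' := fun x u => g u * u * deriv G (u * x))
    (bound := fun u => |g u| * (2 * C)) (Metric.ball_mem_nhds t one_pos)
    (Filter.Eventually.of_forall fun x =>
      hg.aestronglyMeasurable.mul (cont_mul hG.continuous x).aestronglyMeasurable)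
    (int_mul zero_le_two hg (cont_mul hG.continuous t))
    ((hg.aestronglyMeasurable.mul continuous_id.aestronglyMeasurable).mul
      (cont_mul hG' t).aestronglyMeasurable)
    ?_ (hg.norm.mul_const _) ?_
  · exact h.2
  · rw [ae_restrict_iff' measurableSet_Ioc]
    refine Filter.Eventually.of_forall fun u hu x hx => ?_
    have hx1 : |x - t| < 1 := by simpa [Real.dist_eq] using hx
    have hx2 : |x| ≤ |t| + 1 := by
      have := abs_sub_abs_le_abs_sub x t
      linarith
    have hu0 : |u| ≤ 2 := by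
      rw [abs_of_pos hu.1]
      exact hu.2
    have h1 : |u * x| ≤ 2 * (|t| + 1) := by
      rw [abs_mul]
      exact mul_le_mul hu0 hx2 (abs_nonneg _) zero_le_two
    have h2 : ‖deriv G (u * x)‖ ≤ C := hC _ ⟨(abs_le.1 h1).1, (abs_le.1 h1).2⟩
    rw [Real.norm_eq_abs] at h2 ⊢
    rw [abs_mul, abs_mul, mul_assoc]
    exact mul_le_mul_of_nonneg_left (mul_le_mul hu0 h2 (abs_nonneg _) zero_le_two) (abs_nonneg _)
  · refine Filter.Eventually.of_forall fun u x _ => ?_
    have h1 : HasDerivAt G (deriv G (u * x)) (u * x) :=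
      (hG.differentiable (by simp)).differentiableAt.hasDerivAt
    have h2 : HasDerivAt (fun x => u * x) u x := by
      simpa using (hasDerivAt_id x).const_mul u
    have h3 := (h1.comp x h2).const_mul (g u)
    refine h3.congr_deriv ?_
    ring

theorem smooth_nat (n : ℕ) : ∀ g G : ℝ → ℝ, IntegrableOn g (Set.Ioc 0 2) → ContDiff ℝ ∞ G →
    ContDiff ℝ n (Fg g G) := by
  induction n with
  | zero =>
    intro g G hg hG
    refine contDiff_zero.2 (continuous_iff_continuousAt.2 fun t => ?_)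
    exact (hasDeriv hg hG t).continuousAt
  | succ n ih =>
    intro g G hg hG
    push_cast
    rw [contDiff_succ_iff_deriv]
    refine ⟨fun t => (hasDeriv hg hG t).differentiableAt, fun h => by simp at h, ?_⟩
    have h1 : deriv (Fg g G) = Fg (fun u => g u * u) (deriv G) :=
      funext fun t => (hasDeriv hg hG t).deriv
    rw [h1]
    refine ih _ _ (int_mul zero_le_two hg continuous_id) ?_
    exact (contDiff_infty_iff_deriv.1 hG).2

theorem smooth (g G : ℝ → ℝ) (hg : IntegrableOn g (Set.Ioc 0 2)) (hG : ContDiff ℝ ∞ G) :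
    ContDiff ℝ ∞ (Fg g G) :=
  contDiff_infty.2 fun n => smooth_nat n g G hg hG

theorem int_rpow {R : ℝ} (hR : 0 ≤ R) :
    IntegrableOn (fun u : ℝ => u ^ (-(1 / 2) : ℝ)) (Set.Ioc 0 R) := by
  rw [← intervalIntegrable_iff_integrableOn_Ioc_of_le hR]
  exact intervalIntegral.intervalIntegrable_rpow' (by norm_num)

/-- the integral with `u ^ (-1/2)` vanishes -/
theorem mean_zero {G : ℝ → ℝ} (hG : IsG G) {t : ℝ} (ht : 0 < t) :
    IntegrableOn (fun u : ℝ => u ^ (-(1 / 2) : ℝ) * G (u * t)) (Set.Ioi 0) ∧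
    ∫ u in Set.Ioi (0 : ℝ), u ^ (-(1 / 2) : ℝ) * G (u * t) = 0 := by
  constructor
  · have h1 : IntegrableOn (fun u : ℝ => u ^ (-(1 / 2) : ℝ) * G (u * t)) (Set.Ioc 0 (3 / t)) :=
      int_mul (by positivity) (int_rpow (by positivity)) (cont_mul hG.smooth.continuous t)
    refine h1.of_forall_sdiff_eq_zero measurableSet_Ioi fun u hu => ?_
    have h2 : 3 / t < u := by
      by_contra h3
      exact hu.2 ⟨hu.1, not_lt.1 h3⟩
    have h3 : 3 ≤ u * t := by
      rw [div_lt_iff₀ ht] at h2
      exact h2.le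
    rw [hG.high _ h3, mul_zero]
  · have h1 := integral_comp_mul_left_Ioi (fun v : ℝ => G v * v ^ (-(1 / 2) : ℝ)) 0 ht
    rw [mul_zero, hG.mean, smul_zero] at h1
    have h2 : ∫ u in Set.Ioi (0 : ℝ), u ^ (-(1 / 2) : ℝ) * G (u * t) =
        ∫ u in Set.Ioi (0 : ℝ), t ^ (1 / 2 : ℝ) * (G (t * u) * (t * u) ^ (-(1 / 2) : ℝ)) := by
      refine setIntegral_congr_fun measurableSet_Ioi fun u hu => ?_
      have hu0 : 0 < u := hu
      have h3 : t ^ (1 / 2 : ℝ) * t ^ (-(1 / 2) : ℝ) = 1 := by
        rw [← Real.rpow_add ht]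
        norm_num
      rw [Real.mul_rpow ht.le hu0.le, mul_comm u t]
      calc u ^ (-(1 / 2) : ℝ) * G (t * u) =
          (t ^ (1 / 2 : ℝ) * t ^ (-(1 / 2) : ℝ)) * (u ^ (-(1 / 2) : ℝ) * G (t * u)) := by
            rw [h3, one_mul]
        _ = _ := by ring
    rw [h2, integral_const_mul, h1, mul_zero]

theorem pf_JIS : T_JIS := by
  intro G H hG hH
  set g : ℝ → ℝ := fun u => u ^ (-(1 / 2) : ℝ) - H u with hgdef
  have hgi : IntegrableOn g (Set.Ioc 0 2) := by
    refine (int_rpow zero_le_two).sub ?_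
    have h1 : IntegrableOn (fun _ : ℝ => (1 : ℝ)) (Set.Ioc 0 2) := by
      simp [integrableOn_const_iff]
    have h2 := int_mul zero_le_two h1 hH.smooth.continuous
    simpa using h2
  have key : ∀ t, 0 < t → Ji G H t = -Real.pi * Fg g G t := by
    intro t ht
    obtain ⟨h1, h2⟩ := mean_zero hG ht
    have h3 : IntegrableOn (fun u => g u * G (u * t)) (Set.Ioc 0 2) :=
      int_mul zero_le_two hgi (cont_mul hG.smooth.continuous t)
    have h4 : ∀ u ∈ Set.Ioi (0 : ℝ) \ Set.Ioc 0 2, g u * G (u * t) = 0 := by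
      intro u hu
      have h5 : 2 < u := by
        by_contra h6
        exact hu.2 ⟨hu.1, not_lt.1 h6⟩
      rw [hgdef]
      simp only
      rw [hH.high u h5.le, sub_self, zero_mul]
    have h5 : IntegrableOn (fun u => g u * G (u * t)) (Set.Ioi 0) :=
      h3.of_forall_sdiff_eq_zero measurableSet_Ioi h4
    have h6 : ∫ u in Set.Ioi (0 : ℝ), g u * G (u * t) = Fg g G t :=
      setIntegral_eq_of_subset_of_forall_sdiff_eq_zero measurableSet_Ioi
        (fun u hu => hu.1) h4
    have h7 : ∫ u in Set.Ioi (0 : ℝ), H u * G (u * t) = -Fg g G t := by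
      have h8 : ∀ u, H u * G (u * t) = u ^ (-(1 / 2) : ℝ) * G (u * t) - g u * G (u * t) := by
        intro u
        rw [hgdef]
        ring
      rw [integral_congr_ae (Filter.Eventually.of_forall h8), integral_sub h1 h5, h2, h6,
        zero_sub]
    unfold Ji
    rw [h7]
    ring
  refine ⟨fun t => -Real.pi * Fg g G t, contDiff_const.mul (smooth g G hgi hG.smooth), ?_, key⟩
  intro t ht
  have ht0 : 0 < t := by linarith
  simp only
  rw [← key t ht0]
  unfold Ji
  have h1 : ∫ u in Set.Ioi (0 : ℝ), H u * G (u * t) = 0 := by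
    rw [setIntegral_congr_fun measurableSet_Ioi (g := fun _ => (0 : ℝ)) ?_]
    · simp
    · intro u hu
      have hu0 : 0 < u := hu
      simp only
      by_cases h2 : u ≤ 1 / 2
      · rw [hH.low u h2, zero_mul]
      · rw [hG.high (u * t) ?_, mul_zero]
        have h3 : 1 / 2 < u := not_le.1 h2
        nlinarith
  rw [h1, mul_zero]

end

end Pool.Agent.H40.HH
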